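import Pool.Agent.TH898.FF.E

set_option autoImplicit false

noncomputable section

open MeasureTheory
open scoped RealInnerProductSpace ENNReal

namespace Pool.Agent.Results.MP_4807ec_gt.FewFacets

/-- convex bodies in `ℝⁿ` -/
structure IsConvexBody {n : ℕ} (K : Set (EuclideanSpace ℝ (Fin n))) : Prop where
  isCompact : IsCompact K
  convex : Convex ℝ K
  interior_nonempty : (interior K).Nonempty

/-- the polar body (with respect to the origin) -/
def polarBody {n : ℕ} (K : Set (EuclideanSpace ℝ (Fin n))) : Set (EuclideanSpace ℝ (Fin n)) :=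
  {y | ∀ x ∈ K, ⟪x, y⟫ ≤ 1}

/-- the volume product `vol(K) vol(K*)` -/
def volumeProduct {n : ℕ} (K : Set (EuclideanSpace ℝ (Fin n))) : ℝ :=
  volume.real K * volume.real (polarBody K)

/-- the centroid of `K` is the origin -/
def Centered {n : ℕ} (K : Set (EuclideanSpace ℝ (Fin n))) : Prop := ∫ x in K, x = 0

/-- `K` is the convex hull of `m` points, that is, a polytope with at most `m` vertices -/
def HullOfPoints {n : ℕ} (m : ℕ) (K : Set (EuclideanSpace ℝ (Fin n))) : Prop :=
  ∃ v : Fin m → EuclideanSpace ℝ (Fin n), K = convexHull ℝ (Set.range v)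

/-- `K` is the intersection of `m` closed half-spaces `⟪v k, x⟫ ≤ c k`, that is, a polytope with
at most `m` facets -/
def IntersectionOfHalfSpaces {n : ℕ} (m : ℕ) (K : Set (EuclideanSpace ℝ (Fin n))) : Prop :=
  ∃ (v : Fin m → EuclideanSpace ℝ (Fin n)) (c : Fin m → ℝ), K = {x | ∀ k, ⟪v k, x⟫ ≤ c k}

open Pool.Agent.TH898.FF

theorem polar_bounded {n : ℕ} {K : Set (EuclideanSpace ℝ (Fin n))}
    (h0 : (0 : EuclideanSpace ℝ (Fin n)) ∈ interior K) :
    Bornology.IsBounded (polarBody K) := by
  obtain ⟨r, hr, hrK⟩ := Metric.isOpen_iff.mp isOpen_interior 0 h0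
  refine (Metric.isBounded_closedBall (x := (0 : EuclideanSpace ℝ (Fin n)))
    (r := 2 / r)).subset fun y hy => ?_
  rw [mem_closedBall_zero_iff]
  rcases eq_or_ne y 0 with hy0 | hy0
  · rw [hy0, norm_zero]; positivity
  have hyn : 0 < ‖y‖ := norm_pos_iff.mpr hy0
  have hx : ((r / 2) / ‖y‖) • y ∈ K := by
    apply interior_subset
    apply hrK
    rw [Metric.mem_ball, dist_zero_right, norm_smul, Real.norm_eq_abs,
      abs_of_pos (by positivity), div_mul_cancel₀ _ hyn.ne']
    linarith
  have h1 := hy _ hx
  rw [real_inner_smul_left, real_inner_self_eq_norm_sq] at h1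
  have h2 : (r / 2) / ‖y‖ * ‖y‖ ^ 2 = (r / 2) * ‖y‖ := by
    field_simp
  rw [h2] at h1
  rw [le_div_iff₀ hr]
  linarith

/-- **Mahler's inequality up to an exponential factor in the excess number of facets or
vertices.**  Let `K` be a convex body in `ℝⁿ` with centroid at the origin, or with the origin
anywhere in its interior.  If `K` has at most `n + 1 + d` facets, or at most `n + 1 + d` vertices,
then `(n+1)^(n+1) / (n!)² ≤ (2πe)^(d/2) vol(K) vol(K*)`. -/
theorem result :
    ∀ (n d : ℕ) (K : Set (EuclideanSpace ℝ (Fin n))), IsConvexBody K →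
      (Centered K ∨ (0 : EuclideanSpace ℝ (Fin n)) ∈ interior K) →
      (HullOfPoints (n + 1 + d) K ∨ IntersectionOfHalfSpaces (n + 1 + d) K) →
      ((n : ℝ) + 1) ^ (n + 1) / (n.factorial : ℝ) ^ 2 ≤
        (2 * Real.pi * Real.exp 1) ^ ((d : ℝ) / 2) * volumeProduct K := by
  intro n d K hK h hm
  have h0 : (0 : EuclideanSpace ℝ (Fin n)) ∈ interior K := by
    rcases h with h | h
    · exact zero_mem_interior hK.isCompact hK.convex hK.interior_nonempty h
    · exact h
  have hpb := polar_bounded h0
  have hfK : volume K ≠ ∞ := hK.isCompact.measure_lt_top.ne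
  have hfP : volume (polarBody K) ≠ ∞ := hpb.measure_lt_top.ne
  have hpos : (0 : ℝ) < (2 * Real.pi * Real.exp 1) ^ ((d : ℝ) / 2) := by positivity
  have key : ENNReal.ofReal (((n : ℝ) + 1) ^ (n + 1) / (n.factorial : ℝ) ^ 2) ≤
      ENNReal.ofReal ((2 * Real.pi * Real.exp 1) ^ ((d : ℝ) / 2)) *
        (volume K * volume (polarBody K)) := by
    rcases hm with ⟨v, hv⟩ | ⟨v, c, hv⟩
    · have hQ : polarBody K = QE v := by
        ext y
        constructor
        · intro hy k
          refine hy (v k) ?_
          rw [hv]
          exact subset_convexHull ℝ _ ⟨k, rfl⟩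
        · intro hy x hx
          rw [hv] at hx
          have hconv : Convex ℝ {x : EuclideanSpace ℝ (Fin n) | ⟪x, y⟫ ≤ 1} := by
            refine convex_halfSpace_le (f := fun x : EuclideanSpace ℝ (Fin n) => ⟪x, y⟫) ?_ 1
            exact ⟨fun a b => inner_add_left a b y, fun r a => by
              simp [real_inner_smul_left]⟩
          have hsub : Set.range v ⊆ {x : EuclideanSpace ℝ (Fin n) | ⟪x, y⟫ ≤ 1} := by
            rintro _ ⟨k, rfl⟩
            exact hy k
          exact convexHull_min hsub hconv hx
      have hb : Bornology.IsBounded (QE v) := by rw [← hQ]; exact hpb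
      have h1 := euclid v hb
      rw [← hv, ← hQ] at h1
      exact h1
    · -- normalise the half-spaces
      have hc : ∀ k, v k ≠ 0 → 0 < c k := by
        intro k hk
        obtain ⟨r, hr, hrK⟩ := Metric.isOpen_iff.mp isOpen_interior 0 h0
        have hvn : 0 < ‖v k‖ := norm_pos_iff.mpr hk
        have hx : ((r / 2) / ‖v k‖) • v k ∈ K := by
          apply interior_subset
          apply hrK
          rw [Metric.mem_ball, dist_zero_right, norm_smul, Real.norm_eq_abs,
            abs_of_pos (by positivity), div_mul_cancel₀ _ hvn.ne']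
          linarith
        rw [hv] at hx
        have h1 := hx k
        rw [real_inner_smul_right, real_inner_self_eq_norm_sq] at h1
        exact lt_of_lt_of_le (by positivity) h1
      have hc0 : ∀ k, 0 ≤ c k := by
        intro k
        have h1 : (0 : EuclideanSpace ℝ (Fin n)) ∈ K := interior_subset h0
        rw [hv] at h1
        have h2 := h1 k
        rwa [inner_zero_right] at h2
      let v' : Fin (n + 1 + d) → EuclideanSpace ℝ (Fin n) := fun k => (c k)⁻¹ • v k
      have hQ : K = QE v' := by
        rw [hv]
        ext x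
        refine forall_congr' fun k => ?_
        by_cases hk : v k = 0
        · simp only [v', hk, smul_zero, inner_zero_left]
          exact ⟨fun _ => zero_le_one, fun _ => hc0 k⟩
        · simp only [v']
          rw [real_inner_smul_left, inv_mul_le_iff₀ (hc k hk), mul_one]
      have hb : Bornology.IsBounded (QE v') := by rw [← hQ]; exact hK.isCompact.isBounded
      have h1 := euclid v' hb
      rw [← hQ] at h1
      have hsub : convexHull ℝ (Set.range v') ⊆ polarBody K := by
        have hconv : Convex ℝ (polarBody K) := by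
          have : polarBody K = ⋂ x ∈ K, {y : EuclideanSpace ℝ (Fin n) | ⟪x, y⟫ ≤ 1} := by
            ext y; simp [polarBody]
          rw [this]
          refine convex_iInter₂ fun x _ => ?_
          refine convex_halfSpace_le (f := fun y : EuclideanSpace ℝ (Fin n) => ⟪x, y⟫) ?_ 1
          exact ⟨fun a b => inner_add_right x a b, fun r a => by
            simp [real_inner_smul_right]⟩
        refine convexHull_min ?_ hconv
        rintro _ ⟨k, rfl⟩ x hx
        rw [hQ] at hx
        rw [real_inner_comm]
        exact hx k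
      refine h1.trans ?_
      rw [mul_comm (volume K)]
      gcongr
  have h2 := ENNReal.toReal_mono (ENNReal.mul_ne_top ENNReal.ofReal_ne_top
    (ENNReal.mul_ne_top hfK hfP)) key
  rw [ENNReal.toReal_ofReal (by positivity), ENNReal.toReal_mul, ENNReal.toReal_mul,
    ENNReal.toReal_ofReal hpos.le] at h2
  exact h2

end Pool.Agent.Results.MP_4807ec_gt.FewFacets
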