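import Pool.Agent.TH808.Base
import Pool.Agent.TH808.Prod

set_option autoImplicit false

noncomputable section

open MeasureTheory
open scoped ENNReal Pointwise

namespace Pool.Agent.Results.MP_4807ec_gt.FreeSums

/-- convex bodies in `ℝⁿ` -/
structure IsConvexBody {n : ℕ} (K : Set (Fin n → ℝ)) : Prop where
  isCompact : IsCompact K
  convex : Convex ℝ K
  interior_nonempty : (interior K).Nonempty

/-- the polar body `(K - z)*` -/
def polarBody {n : ℕ} (K : Set (Fin n → ℝ)) (z : Fin n → ℝ) : Set (Fin n → ℝ) :=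
  {y | ∀ x ∈ K, ∑ i, (x i - z i) * y i ≤ 1}

/-- the value `(n+1)^(n+1) / (n!)^2` of the simplex -/
def simplexValue (n : ℕ) : ℝ := ((n : ℝ) + 1) ^ (n + 1) / (n.factorial : ℝ) ^ 2

/-- `vol(K) vol((K - z)*) ≥ c (n+1)^(n+1) / (n!)^2` for every interior point `z`; Mahler's
inequality is the case `c = 1` -/
def MahlerBound {n : ℕ} (K : Set (Fin n → ℝ)) (c : ℝ) : Prop :=
  ∀ z ∈ interior K, ENNReal.ofReal (c * simplexValue n) ≤ volume K * volume (polarBody K z)

/-- The convex bodies `K ⊆ ℝⁿ` which can be built from smaller ones, together with a constant `c`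
which is multiplicative. -/
inductive Built : (n : ℕ) → Set (Fin n → ℝ) → ℝ → Prop
  /-- every convex body of dimension at most three, with `c = 1` -/
  | small {n : ℕ} {K : Set (Fin n → ℝ)} (hK : IsConvexBody K) (hn : n ≤ 3) : Built n K 1
  /-- every convex body, with `c (n+1)^(n+1) / n! = (5/2)^n` -/
  | arbitrary {n : ℕ} {K : Set (Fin n → ℝ)} (hK : IsConvexBody K) :
      Built n K ((5 / 2) ^ n * n.factorial / ((n : ℝ) + 1) ^ (n + 1))
  /-- every convex body with `q - (x - q) / lam ∈ K` for all `x ∈ K` (for `lam = 1`: every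
  centrally symmetric body), with `c (n+1)^(n+1) / n! = (2 + 2/lam)^n` -/
  | asymmetry {n : ℕ} {K : Set (Fin n → ℝ)} (hK : IsConvexBody K) {lam : ℝ} (hlam : 1 ≤ lam)
      {q : Fin n → ℝ} (hq : ∀ x ∈ K, q - lam⁻¹ • (x - q) ∈ K) :
      Built n K ((2 + 2 / lam) ^ n * n.factorial / ((n : ℝ) + 1) ^ (n + 1))
  /-- every convex body for which a bound is known -/
  | known {n : ℕ} {K : Set (Fin n → ℝ)} (hK : IsConvexBody K) {c : ℝ} (hc : 0 ≤ c)
      (h : MahlerBound K c) : Built n K c
  /-- the convex hull of the union of two bodies of dimensions `k` and `l` with `k + l = n` which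
  have a common point (anywhere) -/
  | hull {k l n : ℕ} {A : Set (Fin k → ℝ)} {B : Set (Fin l → ℝ)} {c d : ℝ} (hA : Built k A c)
      (hB : Built l B d) (hn : k + l = n) (f : (Fin k → ℝ) →ᵃ[ℝ] (Fin n → ℝ))
      (g : (Fin l → ℝ) →ᵃ[ℝ] (Fin n → ℝ)) {a : Fin k → ℝ} (ha : a ∈ A) {b : Fin l → ℝ}
      (hb : b ∈ B) (hab : f a = g b)
      (hi : (interior (convexHull ℝ (f '' A ∪ g '' B))).Nonempty) :
      Built n (convexHull ℝ (f '' A ∪ g '' B)) (c * d)
  /-- the Minkowski sum of two bodies of dimensions `k` and `l` with `k + l = n` -/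
  | sum {k l n : ℕ} {A : Set (Fin k → ℝ)} {B : Set (Fin l → ℝ)} {c d : ℝ} (hA : Built k A c)
      (hB : Built l B d) (hn : k + l = n) (f : (Fin k → ℝ) →ᵃ[ℝ] (Fin n → ℝ))
      (g : (Fin l → ℝ) →ᵃ[ℝ] (Fin n → ℝ)) (hi : (interior (f '' A + g '' B)).Nonempty) :
      Built n (f '' A + g '' B) (c * d)

open Pool.Agent.TH808

lemma polar_eq {n : ℕ} (K : Set (Fin n → ℝ)) (z : Fin n → ℝ) : polarBody K z = plr K z := rfl

lemma sv_eq (n : ℕ) (c : ℝ) : (n.factorial : ℝ) * (c * simplexValue n) = c * sv n := by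
  unfold simplexValue sv
  have : (n.factorial : ℝ) ≠ 0 := by positivity
  field_simp

lemma fact_ne (n : ℕ) : (n.factorial : ℝ≥0∞) ≠ 0 := by
  exact_mod_cast (Nat.factorial_pos n).ne'

/-- translation to the functional form -/
lemma bound_iff {n : ℕ} {K : Set (Fin n → ℝ)} (hK : IsConvexBody K) (c : ℝ) :
    MahlerBound K c ↔ ∀ z, ENNReal.ofReal (c * sv n) ≤ MZ K z := by
  have key : ∀ z ∈ interior K, (ENNReal.ofReal (c * simplexValue n) ≤
      volume K * volume (polarBody K z) ↔ ENNReal.ofReal (c * sv n) ≤ MZ K z) := by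
    intro z hz
    rw [MZ_plr hK.isCompact hK.convex hz, polar_eq, ← sv_eq n c,
      ENNReal.ofReal_mul (p := (n.factorial : ℝ)) (by positivity), ENNReal.ofReal_natCast]
    exact (ENNReal.mul_le_mul_iff_right (fact_ne n) (ENNReal.natCast_ne_top _)).symm
  constructor
  · intro h z
    by_cases hz : z ∈ interior K
    · exact (key z hz).1 (h z hz)
    · rw [MZ_top hK.isCompact hK.convex hK.interior_nonempty hz]
      exact le_top
  · intro h z hz
    exact (key z hz).2 (h z)

lemma bodyOfHull {k l n : ℕ} {A : Set (Fin k → ℝ)} {B : Set (Fin l → ℝ)} (hA : IsCompact A)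
    (hB : IsCompact B) (f : (Fin k → ℝ) →ᵃ[ℝ] (Fin n → ℝ)) (g : (Fin l → ℝ) →ᵃ[ℝ] (Fin n → ℝ))
    (hi : (interior (convexHull ℝ (f '' A ∪ g '' B))).Nonempty) :
    IsConvexBody (convexHull ℝ (f '' A ∪ g '' B)) where
  isCompact := isCompact_convexHull_of_isCompact
    ((hA.image f.continuous_of_finiteDimensional).union
      (hB.image g.continuous_of_finiteDimensional))
  convex := convex_convexHull ℝ _
  interior_nonempty := hi

lemma bodyOfSum {k l n : ℕ} {A : Set (Fin k → ℝ)} {B : Set (Fin l → ℝ)} (hA : IsConvexBody A)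
    (hB : IsConvexBody B) (f : (Fin k → ℝ) →ᵃ[ℝ] (Fin n → ℝ))
    (g : (Fin l → ℝ) →ᵃ[ℝ] (Fin n → ℝ)) (hi : (interior (f '' A + g '' B)).Nonempty) :
    IsConvexBody (f '' A + g '' B) where
  isCompact := (hA.isCompact.image f.continuous_of_finiteDimensional).add
    (hB.isCompact.image g.continuous_of_finiteDimensional)
  convex := (hA.convex.affine_image f).add (hB.convex.affine_image g)
  interior_nonempty := hi

/-- the induction -/
lemma main {n : ℕ} {K : Set (Fin n → ℝ)} {c : ℝ} (h : Built n K c) :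
    IsConvexBody K ∧ 0 ≤ c ∧ ∀ z, ENNReal.ofReal (c * sv n) ≤ MZ K z := by
  have hval : ∀ (m : ℕ) (b : ℝ), b ^ m * m.factorial / ((m : ℝ) + 1) ^ (m + 1) * sv m = b ^ m := by
    intro m b
    unfold sv
    have h1 : (m.factorial : ℝ) ≠ 0 := by positivity
    have h2 : ((m : ℝ) + 1) ≠ 0 := by positivity
    field_simp
  induction h with
  | small hK hn =>
    refine ⟨hK, zero_le_one, fun z => ?_⟩
    rw [one_mul]
    exact low hn hK.isCompact hK.convex hK.interior_nonempty z
  | arbitrary hK =>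
    refine ⟨hK, by positivity, fun z => ?_⟩
    rw [hval]
    exact any_bd hK.isCompact hK.convex hK.interior_nonempty z
  | asymmetry hK hlam hq =>
    have hl := lt_of_lt_of_le (zero_lt_one (α := ℝ)) hlam
    refine ⟨hK, by positivity, fun z => ?_⟩
    rw [hval]
    exact asym_bd hK.isCompact hK.convex hK.interior_nonempty hl hq z
  | known hK hc h => exact ⟨hK, hc, (bound_iff hK _).1 h⟩
  | hull hA hB hn f g ha hb hab hi ihA ihB =>
    obtain ⟨h1, h2, h3⟩ := ihA
    obtain ⟨h4, h5, h6⟩ := ihB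
    exact ⟨bodyOfHull h1.isCompact h4.isCompact f g hi, mul_nonneg h2 h5,
      two_aff hn f g h1.isCompact h4.isCompact ha hb hab h2 h5 h3 h6 hi⟩
  | sum hA hB hn f g hi ihA ihB =>
    obtain ⟨h1, h2, h3⟩ := ihA
    obtain ⟨h4, h5, h6⟩ := ihB
    exact ⟨bodyOfSum h1 h4 f g hi, mul_nonneg h2 h5,
      prod_aff hn f g h1.isCompact h4.isCompact (h1.interior_nonempty.mono interior_subset)
        (h4.interior_nonempty.mono interior_subset) h2 h5 h3 h6 hi⟩

/-- **The normalised Mahler volume is supermultiplicative under free sums with an arbitrary common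
point.** -/
theorem result (n : ℕ) (K : Set (Fin n → ℝ)) (c : ℝ) (h : Built n K c) : MahlerBound K c := by
  obtain ⟨h1, -, h3⟩ := main h
  exact (bound_iff h1 c).2 h3

end Pool.Agent.Results.MP_4807ec_gt.FreeSums
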