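import Pool.Agent.TH808.Growth
import Pool.Agent.TH808.Prod

set_option autoImplicit false

noncomputable section

open MeasureTheory
open scoped ENNReal

namespace Pool.Agent.Results.MP_4807ec_gt.GrowthConstant

/-- convex bodies in `ℝⁿ` -/
structure IsConvexBody {n : ℕ} (K : Set (Fin n → ℝ)) : Prop where
  isCompact : IsCompact K
  convex : Convex ℝ K
  interior_nonempty : (interior K).Nonempty

/-- the polar body `(K - z)*` -/
def polarBody {n : ℕ} (K : Set (Fin n → ℝ)) (z : Fin n → ℝ) : Set (Fin n → ℝ) :=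
  {y | ∀ x ∈ K, ∑ i, (x i - z i) * y i ≤ 1}

/-- the value `(n+1)^(n+1) / (n!)^2` of the simplex -/
def simplexValue (n : ℕ) : ℝ := ((n : ℝ) + 1) ^ (n + 1) / (n.factorial : ℝ) ^ 2

/-- `vol(K) vol((K - z)*) ≥ c (n+1)^(n+1) / (n!)^2` for every convex body `K` in `ℝⁿ` and every
interior point `z`; Mahler's inequality in dimension `n` is the case `c = 1` -/
def LowerBound (n : ℕ) (c : ℝ) : Prop :=
  ∀ K : Set (Fin n → ℝ), IsConvexBody K → ∀ z ∈ interior K,
    ENNReal.ofReal (c * simplexValue n) ≤ volume K * volume (polarBody K z)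

open Pool.Agent.TH808

lemma polar_eq {n : ℕ} (K : Set (Fin n → ℝ)) (z : Fin n → ℝ) : polarBody K z = plr K z := rfl

lemma sv_eq (n : ℕ) (c : ℝ) : (n.factorial : ℝ) * (c * simplexValue n) = c * sv n := by
  unfold simplexValue sv
  have : (n.factorial : ℝ) ≠ 0 := by positivity
  field_simp

lemma fact_ne (n : ℕ) : (n.factorial : ℝ≥0∞) ≠ 0 := by
  exact_mod_cast (Nat.factorial_pos n).ne'

lemma IsConvexBody.bd {n : ℕ} {K : Set (Fin n → ℝ)} (h : IsConvexBody K) : BD K :=
  ⟨h.isCompact, h.convex, h.interior_nonempty⟩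

lemma ofBD {n : ℕ} {K : Set (Fin n → ℝ)} (h : BD K) : IsConvexBody K := ⟨h.comp, h.conv, h.int⟩

lemma point {n : ℕ} {K : Set (Fin n → ℝ)} (hK : IsConvexBody K) (c : ℝ) {z : Fin n → ℝ}
    (hz : z ∈ interior K) : (ENNReal.ofReal (c * simplexValue n) ≤
      volume K * volume (polarBody K z) ↔ ENNReal.ofReal (c * sv n) ≤ MZ K z) := by
  rw [MZ_plr hK.isCompact hK.convex hz, polar_eq, ← sv_eq n c,
    ENNReal.ofReal_mul (p := (n.factorial : ℝ)) (by positivity), ENNReal.ofReal_natCast]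
  exact (ENNReal.mul_le_mul_iff_right (fact_ne n) (ENNReal.natCast_ne_top _)).symm

/-- `e ≤ sv (m+1) / sv m` -/
lemma exp_le_rr (m : ℕ) : Real.exp 1 ≤ rr m := by
  unfold rr
  have h1 : ((m:ℝ) + 1) / ((m:ℝ) + 2) ≤ Real.exp (-(1 / ((m:ℝ) + 2))) := by
    have h := Real.add_one_le_exp (-(1 / ((m:ℝ) + 2)))
    have e : ((m:ℝ) + 1) / ((m:ℝ) + 2) = -(1 / ((m:ℝ) + 2)) + 1 := by field_simp; ring
    rw [e]; exact h
  have h2 : Real.exp (1 / ((m:ℝ) + 2)) ≤ ((m:ℝ) + 2) / ((m:ℝ) + 1) := by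
    rw [Real.exp_neg] at h1
    have h3 := inv_anti₀ (by positivity) h1
    rwa [inv_inv, inv_div] at h3
  have h4 := pow_le_pow_left₀ (Real.exp_pos _).le h2 (m + 2)
  rw [← Real.exp_nat_mul] at h4
  have e : (((m + 2 : ℕ) : ℝ)) * (1 / ((m:ℝ) + 2)) = 1 := by push_cast; field_simp
  rwa [e] at h4

lemma exp_le_sv (m : ℕ) : Real.exp 1 ^ m ≤ sv m := by
  induction m with
  | zero => unfold sv; norm_num
  | succ m ih =>
    rw [sv_succ, pow_succ, mul_comm]
    exact mul_le_mul (exp_le_rr m) ih (by positivity) (rr_pos m).le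

/-- **The growth constant of the minimal volume product governs all dimensions.** -/
theorem result : ∃ γ : ℝ, 5 / 2 ≤ γ ∧ γ ≤ Real.exp 1 ∧
    -- the bound in every dimension
    (∀ n : ℕ, LowerBound n ((γ / Real.exp 1) ^ (n + 1))) ∧
    -- `γ` is the growth constant: for large `m` some body is almost as bad as `γ^m / m!`
    (∀ δ : ℝ, 0 < δ → ∃ m₀ : ℕ, ∀ m : ℕ, m₀ ≤ m → ∃ K : Set (Fin m → ℝ), IsConvexBody K ∧
      ∃ z ∈ interior K, volume K * volume (polarBody K z) ≤
        ENNReal.ofReal ((γ + δ) ^ m / m.factorial)) ∧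
    -- Mahler's inequality in all dimensions is equivalent to its asymptotic form
    ((∀ n : ℕ, LowerBound n 1) ↔ γ = Real.exp 1) := by
  obtain ⟨g, hg0, hg1, hlow, hup⟩ := growth
  have he := Real.exp_pos 1
  -- upper bounds in terms of the polar body
  have hup' : ∀ δ : ℝ, 0 < δ → ∃ m₀ : ℕ, ∀ m : ℕ, m₀ ≤ m → ∃ K : Set (Fin m → ℝ), BD K ∧
      ∃ z ∈ interior K, MZ K z ≤ ENNReal.ofReal ((Real.exp 1 * g + δ) ^ m) := by
    intro δ hδ
    have hδ' : 0 < δ / Real.exp 1 := by positivity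
    obtain ⟨m0, hm0⟩ := hup (g + δ / Real.exp 1) (by linarith)
    refine ⟨m0, fun m hm => ?_⟩
    obtain ⟨K, hK, z, hz⟩ := hm0 m hm
    have e : Real.exp 1 * (g + δ / Real.exp 1) = Real.exp 1 * g + δ := by field_simp
    rw [e] at hz
    refine ⟨K, hK, z, ?_, hz⟩
    by_contra hcon
    rw [MZ_top hK.comp hK.conv hK.int hcon] at hz
    exact absurd hz (by simp)
  -- a lower bound `C^m` for all bodies gives `C ≤ e g`
  have hcomp : ∀ C : ℝ, 0 < C → (∀ m : ℕ, ∀ K : Set (Fin m → ℝ), BD K → ∀ z,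
      ENNReal.ofReal (C ^ m) ≤ MZ K z) → C ≤ Real.exp 1 * g := by
    intro C hC h
    by_contra hcon
    push Not at hcon
    obtain ⟨m0, hm0⟩ := hup' ((C - Real.exp 1 * g) / 2) (by linarith)
    obtain ⟨K, hK, z, -, hz⟩ := hm0 (m0 + 1) (Nat.le_succ m0)
    have h1 := (h _ K hK z).trans hz
    have h2 : 0 ≤ Real.exp 1 * g := by positivity
    rw [ENNReal.ofReal_le_ofReal_iff (by
      apply pow_nonneg
      linarith)] at h1
    have h3 : Real.exp 1 * g + (C - Real.exp 1 * g) / 2 < C := by linarith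
    exact absurd h1 (not_le.2 (pow_lt_pow_left₀ h3 (by linarith) (Nat.succ_ne_zero m0)))
  refine ⟨Real.exp 1 * g, ?_, ?_, ?_, ?_, ?_⟩
  · exact hcomp (5 / 2) (by norm_num) fun m K hK z => any_bd hK.comp hK.conv hK.int z
  · calc Real.exp 1 * g ≤ Real.exp 1 * 1 := by gcongr
      _ = _ := mul_one _
  · intro n K hK z hz
    rw [point hK _ hz, mul_div_cancel_left₀ _ he.ne']
    exact hlow n K hK.bd z
  · intro δ hδ
    obtain ⟨m0, hm0⟩ := hup' δ hδ
    refine ⟨m0, fun m hm => ?_⟩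
    obtain ⟨K, hK, z, hzi, hz⟩ := hm0 m hm
    refine ⟨K, ofBD hK, z, hzi, ?_⟩
    rw [MZ_plr hK.comp hK.conv hzi, ← polar_eq] at hz
    rw [← ENNReal.mul_le_mul_iff_right (fact_ne m) (ENNReal.natCast_ne_top _)]
    refine hz.trans (le_of_eq ?_)
    have hf : (0:ℝ) < m.factorial := by positivity
    rw [← ENNReal.ofReal_natCast, ← ENNReal.ofReal_mul hf.le]
    congr 1
    field_simp
  · constructor
    · intro h
      refine le_antisymm ?_ ?_
      · calc Real.exp 1 * g ≤ Real.exp 1 * 1 := by gcongr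
          _ = _ := mul_one _
      · refine hcomp (Real.exp 1) he fun m K hK z => ?_
        by_cases hz : z ∈ interior K
        · have h1 := (point (ofBD hK) 1 hz).1 (h m K (ofBD hK) z hz)
          rw [one_mul] at h1
          exact (ENNReal.ofReal_le_ofReal (exp_le_sv m)).trans h1
        · rw [MZ_top hK.comp hK.conv hK.int hz]
          exact le_top
    · intro h n K hK z hz
      have hgone : g = 1 := by
        have := mul_left_cancel₀ he.ne' (h.trans (mul_one _).symm)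
        exact this
      rw [point hK _ hz]
      have := hlow n K hK.bd z
      rwa [hgone, one_pow] at this

end Pool.Agent.Results.MP_4807ec_gt.GrowthConstant
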