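import Pool.Agent.TH845.HP.E1

set_option autoImplicit false

noncomputable section

open MeasureTheory
open scoped ENNReal

namespace Pool.Agent.Results.MP_4807ec_gt.HullsWithPoints

/-- convex bodies in `ℝⁿ` -/
structure IsConvexBody {n : ℕ} (K : Set (Fin n → ℝ)) : Prop where
  isCompact : IsCompact K
  convex : Convex ℝ K
  interior_nonempty : (interior K).Nonempty

/-- the polar body `(K - z)*` -/
def polarBody {n : ℕ} (K : Set (Fin n → ℝ)) (z : Fin n → ℝ) : Set (Fin n → ℝ) :=
  {y | ∀ x ∈ K, ∑ i, (x i - z i) * y i ≤ 1}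

/-- the value `(n+1)^(n+1) / (n!)^2` of the simplex -/
def simplexValue (n : ℕ) : ℝ := ((n : ℝ) + 1) ^ (n + 1) / (n.factorial : ℝ) ^ 2

/-- `vol(K) vol((K - z)*) ≥ c (n+1)^(n+1) / (n!)^2` for every interior point `z`; Mahler's
inequality is the case `c = 1` -/
def MahlerBound {n : ℕ} (K : Set (Fin n → ℝ)) (c : ℝ) : Prop :=
  ∀ z ∈ interior K, ENNReal.ofReal (c * simplexValue n) ≤ volume K * volume (polarBody K z)

/-- `K` is the convex hull of a compact convex set of dimension at most `d` and of at most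
`n - d + 1` points -/
def HullWithPoints {n : ℕ} (d : ℕ) (K : Set (Fin n → ℝ)) : Prop :=
  ∃ (A : Set (Fin n → ℝ)) (W : Finset (Fin n → ℝ)), IsCompact A ∧ Convex ℝ A ∧
    Module.finrank ℝ (vectorSpan ℝ A) ≤ d ∧ W.card + d ≤ n + 1 ∧
    K = convexHull ℝ (A ∪ (W : Set (Fin n → ℝ)))

/-- `K` is the intersection of a closed convex set invariant under the translations by a subspace
of codimension at most `d` and of at most `n - d + 1` half-spaces -/
def CylinderWithHalfSpaces {n : ℕ} (d : ℕ) (K : Set (Fin n → ℝ)) : Prop :=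
  ∃ (C : Set (Fin n → ℝ)) (L : Submodule ℝ (Fin n → ℝ)) (H : Finset ((Fin n → ℝ) × ℝ)),
    IsClosed C ∧ Convex ℝ C ∧ n ≤ Module.finrank ℝ L + d ∧ (∀ x ∈ C, ∀ v ∈ L, x + v ∈ C) ∧
    H.card + d ≤ n + 1 ∧ K = C ∩ {x | ∀ h ∈ H, ∑ i, x i * h.1 i ≤ h.2}

open Pool.Agent.TH845.HP

lemma fact_ne (n : ℕ) : (n.factorial : ℝ≥0∞) ≠ 0 := by
  exact_mod_cast (Nat.factorial_pos n).ne'

lemma cst_eq (n : ℕ) (c : ℝ) : (n.factorial : ℝ) * (c * simplexValue n) = c * cst n := by
  unfold simplexValue cst
  have : (n.factorial : ℝ) ≠ 0 := by positivity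
  field_simp

/-- translation to the functional form -/
lemma bound_iff {n : ℕ} {K : Set (Fin n → ℝ)} (hK : IsConvexBody K) {z : Fin n → ℝ}
    (hz : z ∈ interior K) (c : ℝ) :
    ENNReal.ofReal (c * simplexValue n) ≤ volume K * volume (polarBody K z) ↔
      ENNReal.ofReal (c * cst n) ≤ MI K z := by
  have h1 : MI K z = (n.factorial : ℝ≥0∞) * (volume K * volume (polarBody K z)) :=
    Pool.Agent.TH808.MZ_plr hK.isCompact hK.convex hz
  rw [h1, ← cst_eq n c, ENNReal.ofReal_mul (p := (n.factorial : ℝ)) (by positivity),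
    ENNReal.ofReal_natCast]
  exact (ENNReal.mul_le_mul_iff_right (fact_ne n) (ENNReal.natCast_ne_top _)).symm

lemma LBI_iff {n : ℕ} {K : Set (Fin n → ℝ)} (hK : IsConvexBody K) (c : ℝ) :
    MahlerBound K c ↔ LBI (c * cst n) K := by
  constructor
  · intro h z
    by_cases hz : z ∈ interior K
    · exact (bound_iff hK hz c).1 (h z hz)
    · rw [MI_top hK.convex hK.isCompact hK.interior_nonempty hz]
      exact le_top
  · intro h z hz
    exact (bound_iff hK hz c).2 (h z)

/-- the general form -/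
lemma general {n d : ℕ} (hd : d ≤ n) {K : Set (Fin n → ℝ)} (hK : IsConvexBody K)
    (h : HullWithPoints d K ∨ CylinderWithHalfSpaces d K) {c : ℝ} (hc : 0 < c)
    (hbase : ∀ L : Set (Fin d → ℝ), IsConvexBody L → MahlerBound L c) : MahlerBound K c := by
  have hb : ∀ L : Set (Fin d → ℝ), IsCompact L → Convex ℝ L → (interior L).Nonempty →
      LBI (c * cst d) L := fun L h1 h2 h3 => (LBI_iff ⟨h1, h2, h3⟩ c).1 (hbase L ⟨h1, h2, h3⟩)
  rcases h with ⟨A, W, hA, hv, hdim, hW, hKe⟩ | ⟨C, L, H, hC, hv, hL, hinv, hH, hKe⟩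
  · rw [LBI_iff hK]
    have hi := hK.interior_nonempty
    rw [hKe] at hi ⊢
    exact hulls hc hd hb A hA hv hdim W hW hi
  · intro z hz
    rw [bound_iff hK hz]
    exact duals hc hd hb C hC hv L hL hinv H hH K hKe hK.isCompact hz

/-- **Mahler's inequality for hulls of a convex set of dimension at most three and `n - 2` points,
and for their polar bodies; the general form of this statement for all dimensions `d`.** -/
theorem result (n d : ℕ) (hd : d ≤ n) (K : Set (Fin n → ℝ)) (hK : IsConvexBody K)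
    (h : HullWithPoints d K ∨ CylinderWithHalfSpaces d K) :
    -- Mahler's inequality if `d ≤ 3`
    (d ≤ 3 → MahlerBound K 1) ∧
    -- every bound valid in dimension `d` is valid for `K`
    (∀ c : ℝ, 0 < c → (∀ L : Set (Fin d → ℝ), IsConvexBody L → MahlerBound L c) →
      MahlerBound K c) ∧
    -- an explicit constant depending only on `d`
    MahlerBound K ((5 / 2) ^ d * d.factorial / ((d : ℝ) + 1) ^ (d + 1)) := by
  refine ⟨fun h3 => ?_, fun c hc hbase => general hd hK h hc hbase, ?_⟩
  · refine general hd hK h one_pos fun L hL => (LBI_iff hL 1).2 fun z => ?_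
    rw [one_mul]
    exact Pool.Agent.TH808.low h3 hL.isCompact hL.convex hL.interior_nonempty z
  · refine general hd hK h (by positivity) fun L hL => (LBI_iff hL _).2 fun z => ?_
    have e : (5 / 2) ^ d * d.factorial / ((d : ℝ) + 1) ^ (d + 1) * cst d = (5 / 2) ^ d := by
      unfold cst
      have h1 : (d.factorial : ℝ) ≠ 0 := by positivity
      have h2 : ((d : ℝ) + 1) ≠ 0 := by positivity
      field_simp
    rw [e]
    exact Pool.Agent.TH808.any_bd hL.isCompact hL.convex hL.interior_nonempty z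

end Pool.Agent.Results.MP_4807ec_gt.HullsWithPoints
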